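import Pool.Agent.H923R2.FZ.Stubs1

set_option autoImplicit false

open scoped ComplexConjugate

noncomputable section

namespace Pool.Agent.H923R2.FZ.T_R1

open Pool.Agent.H923R2.FZ

section aux

variable {B : Type} [CStarAlgebra B]

/-- functional calculus of an element annihilating `q` -/
lemma cfc_mul_zero {a q : B} (ha : IsSelfAdjoint a) (hq : a * q = 0) (F : ℝ → ℝ)
    (hF : Continuous F) : cfc F a * q = ((F 0 : ℝ) : ℂ) • q := by
  by_cases hq0 : q = 0
  · simp [hq0]
  have h0 : (0 : ℝ) ∈ spectrum ℝ a := by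
    rw [spectrum.zero_mem_iff]
    intro hu
    apply hq0
    have := hu.mul_right_eq_zero.1 hq
    exact this
  have key : ∀ f : C(spectrum ℝ a, ℝ), cfcHom ha f * q = ((f ⟨0, h0⟩ : ℝ) : ℂ) • q := by
    intro f
    induction f using ContinuousMap.induction_on_of_compact with
    | const r =>
      have : (ContinuousMap.const (spectrum ℝ a) r) = algebraMap ℝ C(spectrum ℝ a, ℝ) r := rfl
      rw [this, AlgHomClass.commutes, Algebra.algebraMap_eq_smul_one, smul_mul_assoc, one_mul]
      show r • q = ((r : ℝ) : ℂ) • q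
      simp
    | id =>
      rw [cfcHom_id ha, hq]
      show (0 : B) = (((0 : ℝ)) : ℂ) • q
      simp
    | star_id =>
      rw [map_star, cfcHom_id ha, ha.star_eq, hq]
      have : (star (ContinuousMap.restrict (spectrum ℝ a) (ContinuousMap.id ℝ))) ⟨0, h0⟩ =
          (0 : ℝ) := by
        rw [ContinuousMap.star_apply]
        simp
      rw [this]
      simp
    | add f g hf hg =>
      rw [map_add, add_mul, hf, hg, ← add_smul, ContinuousMap.add_apply]
      push_cast
      rfl
    | mul f g hf hg =>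
      rw [map_mul, mul_assoc, hg, mul_smul_comm, hf, smul_smul, ContinuousMap.mul_apply]
      push_cast
      rw [mul_comm]
    | frequently f hf =>
      have hcl : IsClosed {g : C(spectrum ℝ a, ℝ) |
          cfcHom ha g * q = ((g ⟨0, h0⟩ : ℝ) : ℂ) • q} := by
        refine isClosed_eq ((cfcHom_continuous ha).mul continuous_const) ?_
        refine Continuous.smul ?_ continuous_const
        exact Complex.continuous_ofReal.comp (continuous_eval_const _)
      exact hcl.closure_subset (mem_closure_iff_frequently.2 hf)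
  rw [cfc_apply F a ha hF.continuousOn, key]
  rfl

lemma mul_cfc_zero {a q : B} (ha : IsSelfAdjoint a) (hqs : IsSelfAdjoint q) (hq : a * q = 0)
    (F : ℝ → ℝ) (hF : Continuous F) : q * cfc F a = ((F 0 : ℝ) : ℂ) • q := by
  have h := congrArg star (cfc_mul_zero ha hq F hF)
  rw [star_mul, star_smul, hqs.star_eq, (cfc_predicate F a (R := ℝ)).star_eq] at h
  simpa using h

/-- exponentials on eigenvectors -/
lemma exp_mul_eq {h g : B} {c : ℂ} (hg : h * g = c • g) :
    NormedSpace.exp h * g = Complex.exp c • g := by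
  have h1 : ∀ n : ℕ, h ^ n * g = c ^ n • g := by
    intro n
    induction n with
    | zero => simp
    | succ n ih => rw [pow_succ, mul_assoc, hg, mul_smul_comm, ih, smul_smul, pow_succ, mul_comm]
  have h2 := (NormedSpace.exp_series_hasSum_exp' (𝕂 := ℂ) h).mul_right g
  have h3 := (NormedSpace.exp_series_hasSum_exp' (𝕂 := ℂ) c).smul_const g
  rw [Complex.exp_eq_exp_ℂ]
  refine HasSum.unique h2 ?_
  have : (fun n : ℕ => ((n.factorial : ℂ)⁻¹ • h ^ n) * g) =
      fun n : ℕ => ((n.factorial : ℂ)⁻¹ • c ^ n) • g := by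
    funext n
    rw [smul_mul_assoc, h1, smul_assoc]
  rw [this]
  exact h3

lemma mul_exp_eq {h g : B} {c : ℂ} (hg : g * h = c • g) :
    g * NormedSpace.exp h = Complex.exp c • g := by
  have h1 : ∀ n : ℕ, g * h ^ n = c ^ n • g := by
    intro n
    induction n with
    | zero => simp
    | succ n ih => rw [pow_succ, ← mul_assoc, ih, smul_mul_assoc, hg, smul_smul, pow_succ]
  have h2 := (NormedSpace.exp_series_hasSum_exp' (𝕂 := ℂ) h).mul_left g
  have h3 := (NormedSpace.exp_series_hasSum_exp' (𝕂 := ℂ) c).smul_const g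
  rw [Complex.exp_eq_exp_ℂ]
  refine HasSum.unique h2 ?_
  have : (fun n : ℕ => g * ((n.factorial : ℂ)⁻¹ • h ^ n)) =
      fun n : ℕ => ((n.factorial : ℂ)⁻¹ • c ^ n) • g := by
    funext n
    rw [mul_smul_comm, h1, smul_assoc]
  rw [this]
  exact h3

/-- the algebra `{b : k b = b = b k} + ℂ`, described by `q = 1 - k` -/
def Ht (q : B) (hq : IsSelfAdjoint q) : StarSubalgebra ℂ B where
  carrier := {b | ∃ l : ℂ, q * b = l • q ∧ b * q = l • q}
  mul_mem' := by
    rintro a b ⟨l, h1, h2⟩ ⟨m, h3, h4⟩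
    refine ⟨l * m, ?_, ?_⟩
    · rw [← mul_assoc, h1, smul_mul_assoc, h3, smul_smul]
    · rw [mul_assoc, h4, mul_smul_comm, h2, smul_smul, mul_comm]
  one_mem' := ⟨1, by simp, by simp⟩
  add_mem' := by
    rintro a b ⟨l, h1, h2⟩ ⟨m, h3, h4⟩
    exact ⟨l + m, by rw [mul_add, h1, h3, add_smul], by rw [add_mul, h2, h4, add_smul]⟩
  zero_mem' := ⟨0, by simp, by simp⟩
  algebraMap_mem' := fun r => ⟨r, by
    rw [Algebra.algebraMap_eq_smul_one, mul_smul_comm, mul_one], by
    rw [Algebra.algebraMap_eq_smul_one, smul_mul_assoc, one_mul]⟩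
  star_mem' := by
    rintro a ⟨l, h1, h2⟩
    refine ⟨conj l, ?_, ?_⟩
    · have := congrArg star h2
      rwa [star_mul, star_smul, hq.star_eq] at this
    · have := congrArg star h1
      rwa [star_mul, star_smul, hq.star_eq] at this

lemma mem_Ht {q : B} {hq : IsSelfAdjoint q} {b : B} :
    b ∈ Ht q hq ↔ ∃ l : ℂ, q * b = l • q ∧ b * q = l • q := Iff.rfl

lemma isClosed_Ht (q : B) (hq : IsSelfAdjoint q) : IsClosed (Ht q hq : Set B) := by
  have h1 : (Ht q hq : Set B) = {b | q * b ∈ Submodule.span ℂ {q}} ∩ {b | b * q = q * b} := by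
    ext b
    simp only [SetLike.mem_coe, mem_Ht, Set.mem_inter_iff, Set.mem_ofPred_eq,
      Submodule.mem_span_singleton]
    constructor
    · rintro ⟨l, h1, h2⟩
      exact ⟨⟨l, h1.symm⟩, by rw [h1, h2]⟩
    · rintro ⟨⟨l, h1⟩, h2⟩
      exact ⟨l, h1.symm, by rw [h2, h1]⟩
  rw [h1]
  refine IsClosed.inter ?_ ?_
  · exact (Submodule.closed_of_finiteDimensional (Submodule.span ℂ {q})).preimage
      (continuous_const.mul continuous_id)
  · exact isClosed_eq (continuous_id.mul continuous_const) (continuous_const.mul continuous_id)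

/-- divided by the square root, still continuous -/
lemma cont_div {G : ℝ → ℝ} (hG : Continuous G) {ε : ℝ} (hε : 0 < ε)
    (h0 : ∀ t, t ≤ ε → G t = 0) : Continuous (fun t => G t / Real.sqrt t) := by
  rw [continuous_iff_continuousAt]
  intro t
  by_cases ht : t < ε
  · have : (fun t => G t / Real.sqrt t) =ᶠ[nhds t] fun _ => 0 := by
      filter_upwards [Iio_mem_nhds ht] with s hs
      rw [h0 s (le_of_lt hs), zero_div]
    exact (continuousAt_congr this).2 continuousAt_const
  · have hpos : 0 < t := lt_of_lt_of_le hε (not_lt.1 ht)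
    exact hG.continuousAt.div Real.continuous_sqrt.continuousAt (Real.sqrt_pos.2 hpos).ne'

end aux

lemma isUnit_Ht {B : Type} [CStarAlgebra B] {q : B} {hq : IsSelfAdjoint q} {y : B} {l : ℂ}
    (hl : l ≠ 0) (hy : IsUnit y) (h1 : q * y = l • q) (h2 : y * q = l • q) :
    IsUnit (⟨y, ⟨l, h1, h2⟩⟩ : Ht q hq) := by
  obtain ⟨u, rfl⟩ := hy
  have h3 : q * ((u⁻¹ : Bˣ) : B) = l⁻¹ • q := by
    have : q * (u : B) * ((u⁻¹ : Bˣ) : B) = q := by rw [mul_assoc, Units.mul_inv, mul_one]
    rw [h1, smul_mul_assoc] at this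
    rw [← this, smul_smul, inv_mul_cancel₀ hl, one_smul, this]
  have h4 : ((u⁻¹ : Bˣ) : B) * q = l⁻¹ • q := by
    have : ((u⁻¹ : Bˣ) : B) * ((u : B) * q) = q := by rw [← mul_assoc, Units.inv_mul, one_mul]
    rw [h2, mul_smul_comm] at this
    rw [← this, smul_smul, inv_mul_cancel₀ hl, one_smul, this]
  exact ⟨⟨⟨(u : B), ⟨l, h1, h2⟩⟩, ⟨((u⁻¹ : Bˣ) : B), ⟨l⁻¹, h3, h4⟩⟩, Subtype.ext (Units.mul_inv u),
    Subtype.ext (Units.inv_mul u)⟩, rfl⟩

theorem SRb_of_SR (B : Type) [CStarAlgebra B] (h : SR B) : SRb B := by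
  intro b _
  obtain ⟨z, hz, hz'⟩ := h b 1 one_pos
  exact ⟨z, hz, hz'⟩

theorem t_R1 (hR0 : S_R0) (hR1a : S_R1a) : S_R1 := by
  intro B _ hSR k x hk hkx hxk ε hε
  by_cases hk1 : 1 - k = 0
  · obtain ⟨w, hw⟩ := hR0 B (SRb_of_SR B hSR) x ε hε
    exact ⟨w, by rw [hk1, zero_mul], by rw [hk1, mul_zero], hw⟩
  set q : B := 1 - k with hqdef
  have hq : IsSelfAdjoint q := (IsSelfAdjoint.one B).sub hk
  have hqx : q * x = 0 := by rw [hqdef, sub_mul, one_mul, hkx, sub_self]
  have hxq : x * q = 0 := by rw [hqdef, mul_sub, mul_one, hxk, sub_self]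
  have hsx : star x * q = 0 := by
    have := congrArg star hqx
    rwa [star_mul, hq.star_eq, star_zero] at this
  let _ : CStarAlgebra (Ht q hq) := StarSubalgebra.cstarAlgebra _ (h_closed := isClosed_Ht q hq)
  -- the scalar is a norm
  have huniq : ∀ l m : ℂ, l • q = m • q → l = m := by
    intro l m hlm
    exact smul_left_injective ℂ hk1 hlm
  have : Nontrivial B := nontrivial_of_ne q 0 hk1
  have hkl : ∀ z : B, q * z = 0 → k * z = z := by
    intro z hz
    rw [hqdef, sub_mul, one_mul] at hz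
    exact (sub_eq_zero.1 hz).symm
  have hkr : ∀ z : B, z * q = 0 → z * k = z := by
    intro z hz
    rw [hqdef, mul_sub, mul_one] at hz
    exact (sub_eq_zero.1 hz).symm
  have hSRb : SRb (Ht q hq) := by
    intro b _
    obtain ⟨l, h1, h2⟩ := b.2
    by_cases hl : l = 0
    · have hb1 : k * (b : B) = b := hkl _ (by rw [h1, hl, zero_smul])
      have hb2 : (b : B) * k = b := hkr _ (by rw [h2, hl, zero_smul])
      obtain ⟨y, hy, hy1, hy2, hy3⟩ := hR1a B hSR k b hk hb1 hb2 (1 / 2) (1 / 4) (by norm_num)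
        (by norm_num)
      refine ⟨⟨y, ⟨_, hy1, hy2⟩⟩, isUnit_Ht (by norm_num) hy hy1 hy2, ?_⟩
      show ‖(b : B) - y‖ < 1
      have e1 : (b : B) - y = -(y - ((((1 / 2 : ℝ)) : ℂ) • 1 + b)) - (((1 / 2 : ℝ)) : ℂ) • 1 := by
        abel
      rw [e1]
      refine lt_of_le_of_lt (norm_sub_le _ _) ?_
      rw [norm_neg, norm_smul, norm_one]
      have : ‖(((1 / 2 : ℝ)) : ℂ)‖ = 1 / 2 := by
        rw [Complex.norm_real, Real.norm_eq_abs]
        norm_num
      rw [this]
      linarith
    · have hln : 0 < ‖l‖ := norm_pos_iff.2 hl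
      set φ : ℂ := l / ‖l‖ with hφ
      have hln' : ((‖l‖ : ℝ) : ℂ) ≠ 0 := by exact_mod_cast hln.ne'
      have hφ0 : φ ≠ 0 := div_ne_zero hl hln'
      have hφn : ‖φ‖ = 1 := by
        rw [hφ, norm_div, Complex.norm_real, norm_norm, div_self hln.ne']
      have hφl : φ * ((‖l‖ : ℝ) : ℂ) = l := div_mul_cancel₀ _ hln'
      set x0 : B := φ⁻¹ • ((b : B) - l • 1) with hx0
      have e1 : q * x0 = 0 := by
        rw [hx0, mul_smul_comm, mul_sub, h1, mul_smul_comm, mul_one, sub_self, smul_zero]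
      have e2 : x0 * q = 0 := by
        rw [hx0, smul_mul_assoc, sub_mul, h2, smul_mul_assoc, one_mul, sub_self, smul_zero]
      have hb1 : k * x0 = x0 := hkl _ e1
      have hb2 : x0 * k = x0 := hkr _ e2
      obtain ⟨y, hy, hy1, hy2, hy3⟩ := hR1a B hSR k x0 hk hb1 hb2 ‖l‖ 1 hln one_pos
      have hz1 : q * (φ • y) = l • q := by
        rw [mul_smul_comm, hy1, smul_smul, hφl]
      have hz2 : (φ • y) * q = l • q := by
        rw [smul_mul_assoc, hy2, smul_smul, hφl]
      have hzu : IsUnit (φ • y) := by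
        have : φ • y = (algebraMap ℂ B φ) * y := by
          rw [Algebra.algebraMap_eq_smul_one, smul_mul_assoc, one_mul]
        rw [this]
        exact ((Ne.isUnit hφ0).map (algebraMap ℂ B)).mul hy
      refine ⟨⟨φ • y, ⟨l, hz1, hz2⟩⟩, isUnit_Ht hl hzu hz1 hz2, ?_⟩
      show ‖(b : B) - φ • y‖ < 1
      have e3 : (b : B) - φ • y = φ • (-(y - (((‖l‖ : ℝ) : ℂ) • 1 + x0))) := by
        rw [neg_sub, smul_sub, smul_add, smul_smul, hφl, hx0, smul_smul, mul_inv_cancel₀ hφ0,
          one_smul]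
        abel
      rw [e3, norm_smul, hφn, one_mul, norm_neg]
      exact hy3
  obtain ⟨w, hw⟩ := hR0 (Ht q hq) hSRb ⟨x, ⟨0, by simpa using hqx, by simpa using hxq⟩⟩ ε hε
  obtain ⟨l, hl1, hl2⟩ := (w : Ht q hq).2
  set wb : B := ((w : Ht q hq) : B) with hwb
  have hw1 : star wb * wb = 1 := congrArg Subtype.val (Unitary.mem_iff.1 w.2).1
  have hw2 : wb * star wb = 1 := congrArg Subtype.val (Unitary.mem_iff.1 w.2).2
  have hll : l * conj l = 1 := by
    have h1 : star wb * q = conj l • q := by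
      have := congrArg star hl1
      rwa [star_mul, star_smul, hq.star_eq] at this
    apply huniq
    rw [one_smul]
    calc (l * conj l) • q = star wb * (wb * q) := by
          rw [hl2, mul_smul_comm, h1, smul_smul]
      _ = q := by rw [← mul_assoc, hw1, one_mul]
  have hln : ‖l‖ = 1 := by
    have : ((‖l‖ : ℝ) : ℂ) ^ 2 = 1 := by
      rw [← Complex.mul_conj', hll]
    have h2 : ‖l‖ ^ 2 = 1 := by exact_mod_cast this
    nlinarith [norm_nonneg l]
  set θ : ℝ := Complex.arg l with hθ
  have hexp : Complex.exp (θ * Complex.I) = l := by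
    have := Complex.norm_mul_exp_arg_mul_I l
    rwa [hln, Complex.ofReal_one, one_mul] at this
  set a : B := star x * x with hadef
  have ha : IsSelfAdjoint a := IsSelfAdjoint.star_mul_self x
  have haq : a * q = 0 := by rw [hadef, mul_assoc, hxq, mul_zero]
  set M : ℝ → ℝ := fun t => max 0 (min 1 ((t - ε / 2) / (ε / 2))) with hM
  have hMc : Continuous M := by fun_prop
  have hM0 : M 0 = 0 := by
    rw [hM]
    apply max_eq_left
    refine le_trans (min_le_right _ _) ?_
    have : (0 - ε / 2) / (ε / 2) = -1 := by field_simp; ring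
    rw [this]; norm_num
  have hM1 : ∀ t, ε ≤ t → M t = 1 := by
    intro t ht
    show max 0 (min 1 ((t - ε / 2) / (ε / 2))) = 1
    have : 1 ≤ (t - ε / 2) / (ε / 2) := by
      rw [le_div_iff₀ (by positivity)]
      linarith
    rw [min_eq_left this]
    norm_num
  have hms : IsSelfAdjoint (cfc M a) := cfc_predicate M a
  have hmq : cfc M a * q = 0 := by
    rw [cfc_mul_zero ha haq M hMc, hM0]; simp
  have hqm : q * cfc M a = 0 := by
    rw [mul_cfc_zero ha hq haq M hMc, hM0]; simp
  have hsa : IsSelfAdjoint ((-θ) • (1 - cfc M a) : B) :=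
    (IsSelfAdjoint.all (-θ)).smul ((IsSelfAdjoint.one B).sub hms)
  set u : unitary B := selfAdjoint.expUnitary ⟨(-θ) • (1 - cfc M a), hsa⟩ with hu
  have hucoe : (u : B) = NormedSpace.exp (Complex.I • ((-θ) • (1 - cfc M a)) : B) := rfl
  have hreal : ∀ z : B, (-θ) • z = (((-θ : ℝ)) : ℂ) • z := by
    intro z
    simp
  have huq : (u : B) * q = (Complex.exp (-(θ * Complex.I))) • q := by
    rw [hucoe]
    apply exp_mul_eq
    rw [hreal, smul_mul_assoc, smul_mul_assoc, sub_mul, one_mul, hmq, sub_zero, smul_smul]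
    congr 1
    push_cast
    ring
  have hqu : q * (u : B) = (Complex.exp (-(θ * Complex.I))) • q := by
    rw [hucoe]
    apply mul_exp_eq
    rw [hreal, mul_smul_comm, mul_smul_comm, mul_sub, mul_one, hqm, sub_zero, smul_smul]
    congr 1
    push_cast
    ring
  have hinv : l * Complex.exp (-(θ * Complex.I)) = 1 := by
    rw [Complex.exp_neg, hexp]
    refine mul_inv_cancel₀ ?_
    intro h0
    rw [h0, norm_zero] at hln
    exact zero_ne_one hln
  let wU : unitary B := ⟨wb, Unitary.mem_iff.2 ⟨hw1, hw2⟩⟩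
  refine ⟨wU * u, ?_, ?_, ?_⟩
  · show q * (wb * (u : B)) = q
    rw [← mul_assoc, hl1, smul_mul_assoc, hqu, smul_smul, hinv, one_smul]
  · show (wb * (u : B)) * q = q
    rw [mul_assoc, huq, mul_smul_comm, hl2, smul_smul, mul_comm, hinv, one_smul]
  · intro G hG hG0
    show (wb * (u : B)) * cfc G a = x * cfc (fun t => G t / Real.sqrt t) a
    have h1 : cfc M a * cfc G a = cfc G a := by
      rw [← cfc_mul M G a hMc.continuousOn hG.continuousOn]
      congr 1
      funext t
      by_cases ht : t ≤ ε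
      · rw [hG0 t ht, mul_zero]
      · rw [hM1 t (le_of_lt (not_le.1 ht)), one_mul]
    have h2 : (u : B) * cfc G a = cfc G a := by
      have : (u : B) * cfc G a = Complex.exp 0 • cfc G a := by
        rw [hucoe]
        apply exp_mul_eq
        rw [smul_mul_assoc, smul_mul_assoc, sub_mul, one_mul, h1, sub_self, smul_zero, smul_zero,
          zero_smul]
      rw [this, Complex.exp_zero, one_smul]
    rw [mul_assoc, h2]
    have h3 := congrArg ((Ht q hq).subtype) (hw G hG hG0)
    rw [map_mul, map_mul] at h3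
    have hcs : Continuous ((Ht q hq).subtype) := continuous_subtype_val
    rw [StarAlgHom.map_cfc ((Ht q hq).subtype) G _ hG.continuousOn hcs
        (IsSelfAdjoint.star_mul_self _) ha,
      StarAlgHom.map_cfc ((Ht q hq).subtype) (fun t => G t / Real.sqrt t) _
        (cont_div hG hε hG0).continuousOn hcs (IsSelfAdjoint.star_mul_self _) ha] at h3
    exact h3

end Pool.Agent.H923R2.FZ.T_R1
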